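import Mathlib
import Pool.Agent.Helper212.NonBorel

set_option autoImplicit false

namespace Pool.Agent.Results.MP_930073_lc.InvariantUniversalityFails

open Set MeasureTheory

/-- Analytic subsets of a standard Borel space: projections of Borel subsets of `X × ℕ^ℕ`. -/
def IsAnalytic {X : Type} [MeasurableSpace X] (s : Set X) : Prop :=
  ∃ B : Set (X × (ℕ → ℕ)), MeasurableSet B ∧ s = Prod.fst '' B

/-- Analytic quasi-orders. -/
def AnalyticQO {X : Type} [MeasurableSpace X] (S : X → X → Prop) : Prop :=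
  (∀ x, S x x) ∧ (∀ x y z, S x y → S y z → S x z) ∧ IsAnalytic {p : X × X | S p.1 p.2}

/-- Analytic equivalence relations. -/
def AnalyticER {X : Type} [MeasurableSpace X] (E : X → X → Prop) : Prop :=
  AnalyticQO E ∧ ∀ x y, E x y → E y x

/-- Borel reducibility of relations. -/
def BorelRed {X Y : Type} [MeasurableSpace X] [MeasurableSpace Y]
    (R : X → X → Prop) (R' : Y → Y → Prop) : Prop :=
  ∃ f : X → Y, Measurable f ∧ ∀ x y : X, R x y ↔ R' (f x) (f y)

/-- The restriction of a relation to a set. -/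
def restr {X : Type} (S : X → X → Prop) (B : Set X) : B → B → Prop := fun x y => S x y

/-- The pair `(S, E)` is invariantly universal. -/
def InvariantlyUniversal {X : Type} [MeasurableSpace X] (S E : X → X → Prop) : Prop :=
  ∀ (Z : Type) [MeasurableSpace Z] [StandardBorelSpace Z] (R : Z → Z → Prop), AnalyticQO R →
    ∃ B : Set X, MeasurableSet B ∧ (∀ x ∈ B, ∀ y, E x y → y ∈ B) ∧
      BorelRed (restr S B) R ∧ BorelRed R (restr S B)

theorem IsAnalytic.analyticSet {X : Type} [TopologicalSpace X] [PolishSpace X]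
    [MeasurableSpace X] [BorelSpace X] {s : Set X} (h : IsAnalytic s) : AnalyticSet s := by
  obtain ⟨B, hB, rfl⟩ := h
  exact hB.analyticSet_image measurable_fst

theorem isAnalytic_of {X : Type} [TopologicalSpace X] [PolishSpace X]
    [MeasurableSpace X] [BorelSpace X] {s : Set X} (h : AnalyticSet s) : IsAnalytic s := by
  rw [AnalyticSet] at h
  rcases h with rfl | ⟨g, hg, rfl⟩
  · exact ⟨∅, MeasurableSet.empty, by simp⟩
  · refine ⟨{p | g p.2 = p.1}, measurableSet_eq_fun (hg.measurable.comp measurable_snd)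
      measurable_fst, ?_⟩
    ext x
    constructor
    · rintro ⟨z, rfl⟩
      exact ⟨(g z, z), rfl, rfl⟩
    · rintro ⟨⟨x', z⟩, hz, rfl⟩
      exact ⟨z, hz⟩

/-- Baire space -/
abbrev N : Type := ℕ → ℕ

theorem polishProd {X Y : Type} [TopologicalSpace X] [TopologicalSpace Y] [PolishSpace X]
    [PolishSpace Y] : PolishSpace (X × Y) := inferInstance

theorem polishN : PolishSpace N := inferInstance

theorem polishNN : PolishSpace (ℕ → N) := inferInstance

attribute [local instance] polishProd polishN polishNN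

theorem borelProd {X Y : Type} [TopologicalSpace X] [TopologicalSpace Y] [PolishSpace X]
    [PolishSpace Y] [MeasurableSpace X] [MeasurableSpace Y] [BorelSpace X] [BorelSpace Y] :
    BorelSpace (X × Y) := Prod.borelSpace

theorem borelX : BorelSpace (N × (N × N)) := by
  have : BorelSpace (N × N) := borelProd
  exact borelProd

theorem borelXX : BorelSpace ((N × (N × N)) × (N × (N × N))) := by
  have := borelX
  exact borelProd

attribute [local instance] borelX borelXX

/-- pairing on Baire space -/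
def pr (x y : N) : N := fun n => Nat.pair (x n) (y n)

theorem pr_inj {x y x' y' : N} (h : pr x y = pr x' y') : x = x' ∧ y = y' := by
  constructor
  · funext n
    have := congrFun h n
    simp only [pr, Nat.pair_eq_pair] at this
    exact this.1
  · funext n
    have := congrFun h n
    simp only [pr, Nat.pair_eq_pair] at this
    exact this.2

theorem continuous_pr : Continuous (fun p : N × N => pr p.1 p.2) := by
  refine continuous_pi fun n => ?_
  have h : Continuous (fun q : ℕ × ℕ => Nat.pair q.1 q.2) := continuous_of_discreteTopology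
  have h2 : Continuous (fun p : N × N => ((p.1 n, p.2 n) : ℕ × ℕ)) := by fun_prop
  exact h.comp h2

/-- the universal analytic relation -/
def W (c x y : N) : Prop := Pool.Agent.Helper212.Sq.Wu c (pr x y)

/-- the universal analytic quasi-order -/
def S0 (p q : N × N) : Prop := p.1 = q.1 ∧ Relation.ReflTransGen (W p.1) p.2 q.2

open Pool.Agent.Helper212.Sq in
theorem analytic_Wu : AnalyticSet {p : N × N | Wu p.1 p.2} := by
  have hm : MeasurableSet {p : (N × N) × N |
      ∀ n, p.1.1 (Encodable.encode (Pool.Agent.Helper212.Sq.br p.1.2 n,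
        Pool.Agent.Helper212.Sq.br p.2 n)) = 1} := by
    have : {p : (N × N) × N | ∀ n, p.1.1 (Encodable.encode (Pool.Agent.Helper212.Sq.br p.1.2 n,
        Pool.Agent.Helper212.Sq.br p.2 n)) = 1}
        = ⋂ n, ⋃ q : List ℕ × List ℕ, ((fun p : (N × N) × N => p.1.2) ⁻¹' {y | br y n = q.1}) ∩
          (Prod.snd ⁻¹' {z | br z n = q.2}) ∩
          ((fun p : (N × N) × N => p.1.1) ⁻¹' ((fun y => y (Encodable.encode q)) ⁻¹' {1})) := by
      ext p
      simp only [mem_ofPred_eq, mem_iInter, mem_iUnion, mem_inter_iff, mem_preimage,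
        mem_singleton_iff]
      refine forall_congr' fun n => ⟨fun h => ⟨(br p.1.2 n, br p.2 n), ⟨rfl, rfl⟩, h⟩, ?_⟩
      rintro ⟨⟨a, b⟩, ⟨h1, h2⟩, h3⟩
      simp only at h1 h2
      rw [h1, h2]; exact h3
    rw [this]
    refine MeasurableSet.iInter fun n => MeasurableSet.iUnion fun q => ?_
    refine ((?_ : MeasurableSet _).inter ?_).inter ?_
    · exact (measurable_snd.comp measurable_fst) (measurable_br n q.1)
    · exact measurable_snd (measurable_br n q.2)
    · exact (measurable_fst.comp measurable_fst) (measurable_pi_apply _ (measurableSet_singleton 1))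
  have h2 : {p : N × N | Wu p.1 p.2} = Prod.fst ''
      {p : (N × N) × N | ∀ n, p.1.1 (Encodable.encode (Pool.Agent.Helper212.Sq.br p.1.2 n,
        Pool.Agent.Helper212.Sq.br p.2 n)) = 1} := by
    ext p
    constructor
    · rintro ⟨z, hz⟩
      exact ⟨(p, z), hz, rfl⟩
    · rintro ⟨⟨p', z⟩, hz, rfl⟩
      exact ⟨z, hz⟩
  rw [h2]
  exact hm.analyticSet.image_of_continuous continuous_fst

theorem reflTransGen_iff {α : Type} (r : α → α → Prop) (a b : α) :
    Relation.ReflTransGen r a b ↔ ∃ n : ℕ, ∃ v : ℕ → α, v 0 = a ∧ v n = b ∧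
      ∀ i : Fin n, r (v i) (v (i + 1)) := by
  constructor
  · intro h
    induction h with
    | refl => exact ⟨0, fun _ => a, rfl, rfl, fun i => i.elim0⟩
    | @tail b c _ hbc ih =>
      obtain ⟨n, v, hv0, hvn, hv⟩ := ih
      refine ⟨n + 1, fun i => if i ≤ n then v i else c, by simp [hv0], by simp, ?_⟩
      intro i
      have hi := i.2
      by_cases h : (i : ℕ) < n
      · have h1 : (i : ℕ) ≤ n := h.le
        have h2 : (i : ℕ) + 1 ≤ n := h
        simp only [h1, h2, if_true]
        exact hv ⟨i, h⟩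
      · have h1 : (i : ℕ) = n := by omega
        have h2 : ¬ ((n : ℕ) + 1 ≤ n) := by omega
        simp only [h1, le_refl, if_true, h2, if_false]
        rw [hvn]
        exact hbc
  · rintro ⟨n, v, hv0, hvn, hv⟩
    have key : ∀ k ≤ n, Relation.ReflTransGen r (v 0) (v k) := by
      intro k
      induction k with
      | zero => intro _; exact Relation.ReflTransGen.refl
      | succ k ih =>
        intro hk
        exact (ih (by omega)).tail (hv ⟨k, by omega⟩)
    have := key n le_rfl
    rwa [hv0, hvn] at this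

theorem analytic_S0 : AnalyticSet {p : (N × N) × (N × N) | S0 p.1 p.2} := by
  -- paths
  have hn : ∀ n : ℕ, AnalyticSet {p : ((N × N) × (N × N)) × (ℕ → N) |
      p.1.1.1 = p.1.2.1 ∧ p.2 0 = p.1.1.2 ∧ p.2 n = p.1.2.2 ∧
        ∀ i : Fin n, W p.1.1.1 (p.2 i) (p.2 (i + 1))} := by
    intro n
    have hcl : AnalyticSet {p : ((N × N) × (N × N)) × (ℕ → N) |
        p.1.1.1 = p.1.2.1 ∧ p.2 0 = p.1.1.2 ∧ p.2 n = p.1.2.2} := by
      have h1 : IsClosed {p : ((N × N) × (N × N)) × (ℕ → N) | p.1.1.1 = p.1.2.1} :=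
        isClosed_eq (by fun_prop) (by fun_prop)
      have h2 : IsClosed {p : ((N × N) × (N × N)) × (ℕ → N) | p.2 0 = p.1.1.2} :=
        isClosed_eq (by fun_prop) (by fun_prop)
      have h3 : IsClosed {p : ((N × N) × (N × N)) × (ℕ → N) | p.2 n = p.1.2.2} :=
        isClosed_eq (by fun_prop) (by fun_prop)
      have h4 := (h1.inter (h2.inter h3)).analyticSet
      exact h4
    have hW : ∀ i : Fin n, AnalyticSet {p : ((N × N) × (N × N)) × (ℕ → N) |
        W p.1.1.1 (p.2 i) (p.2 (i + 1))} := by
      intro i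
      have hc : Continuous (fun p : ((N × N) × (N × N)) × (ℕ → N) =>
          ((p.1.1.1, pr (p.2 i) (p.2 (i + 1))) : N × N)) := by
        refine Continuous.prodMk (by fun_prop) ?_
        exact continuous_pr.comp ((by fun_prop : Continuous
          (fun p : ((N × N) × (N × N)) × (ℕ → N) => ((p.2 i, p.2 (i + 1)) : N × N))))
      exact analytic_Wu.preimage hc
    have hset : {p : ((N × N) × (N × N)) × (ℕ → N) |
      p.1.1.1 = p.1.2.1 ∧ p.2 0 = p.1.1.2 ∧ p.2 n = p.1.2.2 ∧
        ∀ i : Fin n, W p.1.1.1 (p.2 i) (p.2 (i + 1))}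
        = ⋂ j : Option (Fin n), (match j with
          | none => {p : ((N × N) × (N × N)) × (ℕ → N) |
              p.1.1.1 = p.1.2.1 ∧ p.2 0 = p.1.1.2 ∧ p.2 n = p.1.2.2}
          | some i => {p : ((N × N) × (N × N)) × (ℕ → N) | W p.1.1.1 (p.2 i) (p.2 (i + 1))}) := by
      ext p
      simp only [mem_iInter]
      constructor
      · rintro ⟨h1, h2, h3, h4⟩ j
        cases j with
        | none => exact ⟨h1, h2, h3⟩
        | some i => exact h4 i
      · intro h
        obtain ⟨h1, h2, h3⟩ := h none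
        exact ⟨h1, h2, h3, fun i => h (some i)⟩
    rw [hset]
    refine AnalyticSet.iInter fun j => ?_
    cases j with
    | none => exact hcl
    | some i => exact hW i
  have hset : {p : (N × N) × (N × N) | S0 p.1 p.2} = ⋃ n : ℕ, Prod.fst ''
      {p : ((N × N) × (N × N)) × (ℕ → N) |
      p.1.1.1 = p.1.2.1 ∧ p.2 0 = p.1.1.2 ∧ p.2 n = p.1.2.2 ∧
        ∀ i : Fin n, W p.1.1.1 (p.2 i) (p.2 (i + 1))} := by
    ext p
    simp only [mem_iUnion]
    constructor
    · rintro ⟨h1, h2⟩
      rw [reflTransGen_iff] at h2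
      obtain ⟨n, v, hv0, hvn, hv⟩ := h2
      exact ⟨n, (p, v), ⟨h1, hv0, hvn, hv⟩, rfl⟩
    · rintro ⟨n, ⟨p', v⟩, ⟨h1, h2, h3, h4⟩, rfl⟩
      refine ⟨h1, ?_⟩
      rw [reflTransGen_iff]
      exact ⟨n, v, h2, h3, h4⟩
  rw [hset]
  exact AnalyticSet.iUnion fun n => (hn n).image_of_continuous continuous_fst

theorem S0_refl (p : N × N) : S0 p p := ⟨rfl, Relation.ReflTransGen.refl⟩

theorem S0_trans {p q r : N × N} (h : S0 p q) (h' : S0 q r) : S0 p r := by
  obtain ⟨h1, h2⟩ := h
  obtain ⟨h3, h4⟩ := h'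
  refine ⟨h1.trans h3, ?_⟩
  rw [← h1] at h4
  exact h2.trans h4

theorem exists_embedding (Z : Type) [MeasurableSpace Z] [StandardBorelSpace Z] :
    ∃ i : Z → N, MeasurableEmbedding i := by
  obtain ⟨f, hf⟩ := exists_measurableEmbedding_real Z
  have h2 : Cardinal.mk N = Cardinal.continuum := by
    simp [N]
  have hN : ¬ Countable N := by
    intro h
    have h1 : Cardinal.mk N ≤ Cardinal.aleph0 := Cardinal.mk_le_aleph0_iff.2 h
    rw [h2] at h1
    exact absurd h1 (not_le.2 Cardinal.aleph0_lt_continuum)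
  have e : ℝ ≃ᵐ N := PolishSpace.measurableEquivOfNotCountable
    (by
      intro h
      have := Cardinal.mk_le_aleph0_iff.2 h
      rw [Cardinal.mk_real] at this
      exact absurd this (not_le.2 Cardinal.aleph0_lt_continuum)) hN
  exact ⟨e ∘ f, e.measurableEmbedding.comp hf⟩

/-- Every analytic quasi-order is a section of `S0`. -/
theorem universal_qo (Z : Type) [MeasurableSpace Z] [StandardBorelSpace Z] (R : Z → Z → Prop)
    (hR : AnalyticQO R) : ∃ c : N, ∃ i : Z → N, MeasurableEmbedding i ∧
      (∀ z z', R z z' ↔ S0 (c, i z) (c, i z')) ∧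
      (∀ u u' : N, S0 (c, u) (c, u') → u ≠ u' → u' ∈ range i) := by
  obtain ⟨i, hi⟩ := exists_embedding Z
  obtain ⟨hrefl, htrans, B, hB, hRB⟩ := hR
  set R' : N → N → Prop := fun u u' => u = u' ∨ ∃ z z', i z = u ∧ i z' = u' ∧ R z z' with hR'
  have hR'refl : ∀ u, R' u u := fun u => Or.inl rfl
  have hR'trans : ∀ u v w, R' u v → R' v w → R' u w := by
    rintro u v w (rfl | ⟨z1, z2, rfl, rfl, h1⟩) (rfl | ⟨z3, z4, h2, rfl, h3⟩)
    · exact Or.inl rfl
    · exact Or.inr ⟨z3, z4, h2, rfl, h3⟩
    · exact Or.inr ⟨z1, z2, rfl, rfl, h1⟩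
    · have := hi.injective h2
      subst this
      exact Or.inr ⟨z1, z4, rfl, rfl, htrans _ _ _ h1 h3⟩
  have han : AnalyticSet {p : N × N | R' p.1 p.2} := by
    have h1 : AnalyticSet ((fun p : (Z × Z) × N => ((i p.1.1, i p.1.2) : N × N)) '' B) :=
      hB.analyticSet_image (((hi.measurable.comp measurable_fst).prodMk
        (hi.measurable.comp measurable_snd)).comp measurable_fst)
    have h2 : AnalyticSet {p : N × N | p.1 = p.2} :=
      (isClosed_eq continuous_fst continuous_snd).analyticSet
    have h3 : {p : N × N | R' p.1 p.2} = ⋃ b : Bool, (match b with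
        | true => {p : N × N | p.1 = p.2}
        | false => (fun p : (Z × Z) × N => ((i p.1.1, i p.1.2) : N × N)) '' B) := by
      ext p
      simp only [mem_iUnion]
      constructor
      · rintro (h | ⟨z, z', h1, h2, h3⟩)
        · exact ⟨true, h⟩
        · refine ⟨false, ?_⟩
          have : (z, z') ∈ {p : Z × Z | R p.1 p.2} := h3
          rw [hRB] at this
          obtain ⟨⟨q, w⟩, hqB, hq⟩ := this
          refine ⟨(q, w), hqB, ?_⟩
          simp only at hq
          subst hq
          exact Prod.ext h1 h2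
      · rintro ⟨b, hb⟩
        cases b with
        | true => exact Or.inl hb
        | false =>
          obtain ⟨⟨q, w⟩, hqB, hq⟩ := hb
          have : q ∈ {p : Z × Z | R p.1 p.2} := by
            rw [hRB]
            exact ⟨(q, w), hqB, rfl⟩
          subst hq
          exact Or.inr ⟨q.1, q.2, rfl, rfl, this⟩
    rw [h3]
    refine AnalyticSet.iUnion fun b => ?_
    cases b with
    | true => exact h2
    | false => exact h1
  obtain ⟨c, hc⟩ := Pool.Agent.Helper212.Sq.universal _ (han.image_of_continuous continuous_pr)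
  have hW : ∀ u u', W c u u' ↔ R' u u' := by
    intro u u'
    unfold W
    rw [← hc]
    constructor
    · rintro ⟨⟨v, v'⟩, hv, h⟩
      obtain ⟨rfl, rfl⟩ := pr_inj h
      exact hv
    · intro h
      exact ⟨(u, u'), h, rfl⟩
  have hgen : ∀ u u', Relation.ReflTransGen (W c) u u' ↔ R' u u' := by
    intro u u'
    constructor
    · intro h
      induction h with
      | refl => exact hR'refl _
      | tail _ h2 ih => exact hR'trans _ _ _ ih ((hW _ _).1 h2)
    · intro h
      exact Relation.ReflTransGen.single ((hW _ _).2 h)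
  refine ⟨c, i, hi, ?_, ?_⟩
  · intro z z'
    constructor
    · intro h
      exact ⟨rfl, (hgen _ _).2 (Or.inr ⟨z, z', rfl, rfl, h⟩)⟩
    · rintro ⟨_, h⟩
      rcases (hgen _ _).1 h with h1 | ⟨w, w', h1, h2, h3⟩
      · rw [hi.injective h1]
        exact hrefl _
      · rw [← hi.injective h1, ← hi.injective h2]
        exact h3
  · rintro u u' ⟨_, h⟩ hne
    rcases (hgen _ _).1 h with h1 | ⟨w, w', h1, h2, h3⟩
    · exact absurd h1 hne
    · exact ⟨w', h2⟩

theorem result : ∃ (X : Type) (_ : MeasurableSpace X) (_ : StandardBorelSpace X)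
    (S E F : X → X → Prop), AnalyticQO S ∧ AnalyticER E ∧ AnalyticER F ∧
      (∀ x y, E x y → S x y ∧ S y x) ∧ (∀ x y, F x y → S x y ∧ S y x) ∧
      InvariantlyUniversal S F ∧ BorelRed E F ∧ ¬ InvariantlyUniversal S E := by
  obtain ⟨A, hA, hAm⟩ := Pool.Agent.Helper212.Sq.exists_analytic_not_measurable
  obtain ⟨x₀, hx₀⟩ : A.Nonempty := by
    by_contra h
    rw [not_nonempty_iff_eq_empty] at h
    subst h
    exact hAm MeasurableSet.empty
  set S : N × (N × N) → N × (N × N) → Prop :=
    fun p q => p = q ∨ (p.1 ∈ A ∧ q.1 ∈ A ∧ S0 p.2 q.2) with hS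
  set F : N × (N × N) → N × (N × N) → Prop :=
    fun p q => p = q ∨ (p.1 = q.1 ∧ p.1 ∈ A ∧ S0 p.2 q.2 ∧ S0 q.2 p.2) with hF
  set E : N × (N × N) → N × (N × N) → Prop := fun p q => S p q ∧ S q p with hE
  -- analyticity
  have hd : AnalyticSet {p : (N × (N × N)) × (N × (N × N)) | p.1 = p.2} :=
    (isClosed_eq continuous_fst continuous_snd).analyticSet
  have hA1 : AnalyticSet {p : (N × (N × N)) × (N × (N × N)) | p.1.1 ∈ A} :=
    hA.preimage (continuous_fst.comp continuous_fst)
  have hA2 : AnalyticSet {p : (N × (N × N)) × (N × (N × N)) | p.2.1 ∈ A} :=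
    hA.preimage (continuous_fst.comp continuous_snd)
  have hS0 : AnalyticSet {p : (N × (N × N)) × (N × (N × N)) | S0 p.1.2 p.2.2} :=
    analytic_S0.preimage ((continuous_snd.comp continuous_fst).prodMk
      (continuous_snd.comp continuous_snd))
  have hS0' : AnalyticSet {p : (N × (N × N)) × (N × (N × N)) | S0 p.2.2 p.1.2} :=
    analytic_S0.preimage ((continuous_snd.comp continuous_snd).prodMk
      (continuous_snd.comp continuous_fst))
  have hinter : ∀ {s t : Set ((N × (N × N)) × (N × (N × N)))}, AnalyticSet s → AnalyticSet t →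
      AnalyticSet (s ∩ t) := by
    intro s t hs ht
    rw [Set.inter_eq_iInter]
    exact AnalyticSet.iInter fun b => by cases b <;> assumption
  have hunion : ∀ {s t : Set ((N × (N × N)) × (N × (N × N)))}, AnalyticSet s → AnalyticSet t →
      AnalyticSet (s ∪ t) := by
    intro s t hs ht
    rw [Set.union_eq_iUnion]
    exact AnalyticSet.iUnion fun b => by cases b <;> assumption
  have hSan : AnalyticSet {p : (N × (N × N)) × (N × (N × N)) | S p.1 p.2} :=
    hunion hd (hinter hA1 (hinter hA2 hS0))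
  have hSan' : AnalyticSet {p : (N × (N × N)) × (N × (N × N)) | S p.2 p.1} :=
    hSan.preimage continuous_swap
  have hFan : AnalyticSet {p : (N × (N × N)) × (N × (N × N)) | F p.1 p.2} := by
    have h1 : AnalyticSet {p : (N × (N × N)) × (N × (N × N)) | p.1.1 = p.2.1} :=
      (isClosed_eq (continuous_fst.comp continuous_fst)
        (continuous_fst.comp continuous_snd)).analyticSet
    exact hunion hd (hinter h1 (hinter hA1 (hinter hS0 hS0')))
  have hEan : AnalyticSet {p : (N × (N × N)) × (N × (N × N)) | E p.1 p.2} := hinter hSan hSan'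
  -- order properties
  have hSrefl : ∀ p, S p p := fun p => Or.inl rfl
  have hStrans : ∀ p q r, S p q → S q r → S p r := by
    rintro p q r (rfl | ⟨h1, h2, h3⟩) (rfl | ⟨h4, h5, h6⟩)
    · exact Or.inl rfl
    · exact Or.inr ⟨h4, h5, h6⟩
    · exact Or.inr ⟨h1, h2, h3⟩
    · exact Or.inr ⟨h1, h5, S0_trans h3 h6⟩
  have hSqo : AnalyticQO S := ⟨hSrefl, hStrans, isAnalytic_of hSan⟩
  have hEer : AnalyticER E := by
    refine ⟨⟨fun p => ⟨hSrefl p, hSrefl p⟩, ?_, isAnalytic_of hEan⟩, fun p q h => ⟨h.2, h.1⟩⟩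
    intro p q r h h'
    exact ⟨hStrans _ _ _ h.1 h'.1, hStrans _ _ _ h'.2 h.2⟩
  have hFer : AnalyticER F := by
    refine ⟨⟨fun p => Or.inl rfl, ?_, isAnalytic_of hFan⟩, ?_⟩
    · rintro p q r (rfl | ⟨h1, h2, h3, h3'⟩) (rfl | ⟨h4, h5, h6, h6'⟩)
      · exact Or.inl rfl
      · exact Or.inr ⟨h4, h5, h6, h6'⟩
      · exact Or.inr ⟨h1, h2, h3, h3'⟩
      · exact Or.inr ⟨h1.trans h4, h2, S0_trans h3 h6, S0_trans h6' h3'⟩
    · rintro p q (rfl | ⟨h1, h2, h3, h3'⟩)
      · exact Or.inl rfl
      · exact Or.inr ⟨h1.symm, h1 ▸ h2, h3', h3⟩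
  refine ⟨N × (N × N), inferInstance, inferInstance, S, E, F, hSqo, hEer, hFer, fun _ _ h => h,
    ?_, ?_, ?_, ?_⟩
  · rintro p q (rfl | ⟨h1, h2, h3, h3'⟩)
    · exact ⟨Or.inl rfl, Or.inl rfl⟩
    · exact ⟨Or.inr ⟨h2, h1 ▸ h2, h3⟩, Or.inr ⟨h1 ▸ h2, h2, h3'⟩⟩
  · -- `(S, F)` is invariantly universal
    intro Z _ _ R hR
    obtain ⟨c, i, hi, hRS, hout⟩ := universal_qo Z R hR
    refine ⟨{p | p.1 = x₀ ∧ p.2.1 = c ∧ p.2.2 ∈ range i}, ?_, ?_, ?_, ?_⟩
    · refine MeasurableSet.inter (measurable_fst (measurableSet_singleton x₀)) ?_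
      refine MeasurableSet.inter ?_ ?_
      · exact (measurable_fst.comp measurable_snd) (measurableSet_singleton c)
      · exact (measurable_snd.comp measurable_snd) hi.measurableSet_range
    · rintro ⟨a, b, u⟩ ⟨h1, h2, h3⟩ ⟨a', b', u'⟩ h
      simp only at h1 h2 h3
      subst h1 h2
      rcases h with h | ⟨h4, h5, h6, h7⟩
      · rw [← h]
        exact ⟨rfl, rfl, h3⟩
      · simp only at h4 h6 h7
        have h8 : b = b' := h6.1
        subst h8
        refine ⟨h4.symm, rfl, ?_⟩
        by_cases huu : u = u'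
        · subst huu; exact h3
        · exact hout u u' h6 huu
    · refine ⟨fun p => hi.equivRange.symm ⟨p.1.2.2, p.2.2.2⟩, ?_, ?_⟩
      · refine hi.equivRange.symm.measurable.comp ?_
        exact Measurable.subtype_mk (measurable_snd.comp (measurable_snd.comp measurable_subtype_coe))
      · rintro ⟨⟨a, b, u⟩, h1, h2, h3⟩ ⟨⟨a', b', u'⟩, h1', h2', h3'⟩
        simp only at h1 h2 h3 h1' h2' h3'
        subst h1 h2 h1' h2'
        obtain ⟨z, rfl⟩ := h3
        obtain ⟨z', rfl⟩ := h3'
        have e1 : hi.equivRange.symm ⟨i z, ⟨z, rfl⟩⟩ = z := by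
          rw [MeasurableEquiv.symm_apply_eq]
          exact (hi.equivRange_apply z).symm
        have e2 : hi.equivRange.symm ⟨i z', ⟨z', rfl⟩⟩ = z' := by
          rw [MeasurableEquiv.symm_apply_eq]
          exact (hi.equivRange_apply z').symm
        simp only [restr]
        rw [e1, e2, hRS]
        constructor
        · rintro (h | ⟨_, _, h⟩)
          · have : i z = i z' := by
              have := congrArg (fun q : N × (N × N) => q.2.2) h
              exact this
            rw [this]
            exact S0_refl _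
          · exact h
        · intro h
          exact Or.inr ⟨hx₀, hx₀, h⟩
    · refine ⟨fun z => ⟨(x₀, (c, i z)), rfl, rfl, ⟨z, rfl⟩⟩, ?_, ?_⟩
      · refine Measurable.subtype_mk ?_
        exact measurable_const.prodMk (measurable_const.prodMk hi.measurable)
      · intro z z'
        simp only [restr]
        rw [hRS]
        constructor
        · intro h
          exact Or.inr ⟨hx₀, hx₀, h⟩
        · rintro (h | ⟨_, _, h⟩)
          · have : i z = i z' := by
              have := congrArg (fun q : N × (N × N) => q.2.2) h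
              exact this
            rw [this]
            exact S0_refl _
          · exact h
  · -- `E` reduces to `F`
    obtain ⟨c, i, hi, hES, -⟩ := universal_qo (N × (N × N)) E hEer.1
    refine ⟨fun p => (x₀, (c, i p)), measurable_const.prodMk (measurable_const.prodMk
      hi.measurable), ?_⟩
    intro p q
    constructor
    · intro h
      exact Or.inr ⟨rfl, hx₀, (hES p q).1 h, (hES q p).1 (hEer.2 _ _ h)⟩
    · rintro (h | ⟨_, _, h, _⟩)
      · have : i p = i q := by
          have := congrArg (fun q : N × (N × N) => q.2.2) h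
          exact this
        rw [hi.injective this]
        exact hEer.1.1 _
      · exact (hES p q).2 h
  · -- `(S, E)` is not invariantly universal
    intro hU
    have hBool : AnalyticQO (fun a b : Bool => a ≤ b) := by
      refine ⟨fun _ => le_rfl, fun _ _ _ h h' => le_trans h h', ?_⟩
      refine ⟨{p | p.1.1 ≤ p.1.2}, ?_, ?_⟩
      · exact measurable_fst (MeasurableSet.of_discrete (s := {p : Bool × Bool | p.1 ≤ p.2}))
      · ext p
        constructor
        · intro h
          exact ⟨(p, fun _ => 0), h, rfl⟩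
        · rintro ⟨⟨p', z⟩, h, rfl⟩
          exact h
    obtain ⟨B, hB, hBinv, ⟨g, _, hg⟩, ⟨h, _, hh⟩⟩ := hU Bool (fun a b : Bool => a ≤ b) hBool
    have h01 : S (h false : N × (N × N)) (h true) := (hh false true).1 (by decide)
    have h10 : ¬ S (h true : N × (N × N)) (h false) := fun hc => by
      have := (hh true false).2 hc
      exact absurd this (by decide)
    rcases h01 with h01 | ⟨hA0, hA1', hS01⟩
    · rw [h01] at h10
      exact h10 (Or.inl rfl)
    set b₀ : N × (N × N) := (h false : N × (N × N)) with hb₀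
    have hsub : A ⊆ {x | (x, b₀.2) ∈ B} := by
      intro x hx
      refine hBinv b₀ (h false).2 (x, b₀.2) ⟨?_, ?_⟩
      · exact Or.inr ⟨hA0, hx, S0_refl _⟩
      · exact Or.inr ⟨hx, hA0, S0_refl _⟩
    have hm : MeasurableSet {x | (x, b₀.2) ∈ B} :=
      (measurable_id.prodMk measurable_const) hB
    obtain ⟨x, hxB, hxA⟩ : ∃ x, (x, b₀.2) ∈ B ∧ x ∉ A := by
      by_contra hcon
      push Not at hcon
      have : A = {x | (x, b₀.2) ∈ B} := Subset.antisymm hsub fun x hx => hcon x hx
      rw [this] at hAm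
      exact hAm hm
    rcases le_total (g ⟨(x, b₀.2), hxB⟩) (g (h false)) with hle | hle
    · rcases (hg _ _).2 hle with h1 | ⟨h1, _, _⟩
      · apply hxA
        have : x = b₀.1 := congrArg Prod.fst h1
        rw [this]
        exact hA0
      · exact hxA h1
    · rcases (hg _ _).2 hle with h1 | ⟨_, h1, _⟩
      · apply hxA
        have : b₀.1 = x := congrArg Prod.fst h1
        rw [← this]
        exact hA0
      · exact hxA h1

end Pool.Agent.Results.MP_930073_lc.InvariantUniversalityFails
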